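import Pool.Agent.SparseIrr.BarrierMain

/-!
A family of reducible polynomials with at most `n ^ 2 + 1` monomials and degree
`p ^ (4 M + 1) + 1` in `n + 1` variables all of whose certificates of reducibility
`f * w = a * b` have at least `n ^ M` monomials in `a` and in `b`.
-/

namespace Pool.Agent.Results.MP_1bab94_lc.CertificateBarrier

open MvPolynomial

theorem result {p : ℕ} [Fact p.Prime] {F : Type*} [Field F] [CharP F p] (n M : ℕ)
    (hn : 0 < n) (hM : 0 < M) (f : MvPolynomial (Fin (n + 1)) F)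
    (hf : f = (∑ i : Fin n, X i.succ) ^ (p ^ (4 * M + 1) + 1) - X 0 ^ (p + 1)) :
    f.support.card ≤ n ^ 2 + 1 ∧ f.totalDegree = p ^ (4 * M + 1) + 1 ∧ ¬ Irreducible f ∧
    ∀ a b w : MvPolynomial (Fin (n + 1)) F,
      f * w = a * b →
      a.totalDegree ≤ f.totalDegree → b.totalDegree ≤ f.totalDegree →
      (∀ c : F, a ≠ C c * f) → (∀ c : F, b ≠ C c * f) →
      n ^ M ≤ a.support.card ∧ n ^ M ≤ b.support.card := by
  have h : f = Pool.Agent.SparseIrr.ex n F (p ^ (4 * M + 1) + 1) (p + 1) := hf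
  obtain ⟨h1, h2, h3, h4⟩ := Pool.Agent.SparseIrr.barrier (F := F) p M hn hM
  rw [← h] at h1 h2 h3 h4
  refine ⟨h1, h2, h3, ?_⟩
  rw [h2]
  exact h4

end Pool.Agent.Results.MP_1bab94_lc.CertificateBarrier
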