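import Pool.Agent.SparseIrr.Cofactor

/-!
In characteristic `p`, the cofactor `h` of a factor `g` with `t` monomials of a polynomial
`f = g * h` with `s` monomials has at most `(s / t) * choose (t + p - 2) (p - 1) ^ m` monomials,
`p ^ m` larger than the individual degrees of `h`; this is sharp up to a factor `2`.
-/

namespace Pool.Agent.Results.MP_1bab94_lc.CofactorBound

open MvPolynomial Pool.Agent.SparseIrr

universe u v

theorem result {p : ℕ} [Fact p.Prime] {F : Type u} [Field F] [CharP F p] :
    (∀ (σ : Type v) (m : ℕ) (g h : MvPolynomial σ F), (∀ i, h.degreeOf i < p ^ m) →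
      h.support.card * g.support.card ≤
        (g * h).support.card * (Nat.choose (g.support.card + p - 2) (p - 1)) ^ m) ∧
    (∀ m n : ℕ, 0 < m → ∃ g h : MvPolynomial (Fin (n + 1)) F,
      g.support.card = n ∧ (∀ i, h.degreeOf i < p ^ m) ∧
      (g * h).support.card * (Nat.choose (g.support.card + p - 2) (p - 1)) ^ m
        ≤ 2 * (h.support.card * g.support.card)) := by
  have hp2 : 2 ≤ p := (Fact.out : p.Prime).two_le
  have hch : ∀ t : ℕ, Nat.choose (t + p - 2) (p - 1) = Nat.multichoose t (p - 1) := by
    intro t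
    rw [Nat.multichoose_eq]
    congr 1
    omega
  refine ⟨fun σ m g h hdeg => ?_, fun m n hm => ?_⟩
  · rw [hch]
    exact cofactor_multichoose p m (g * h) g h rfl hdeg
  · obtain ⟨h1, h2, h3⟩ := sharp_example (F := F) (n := n) p m hm
    refine ⟨S n F, S n F ^ (p ^ m - 1) + X 0, h1, h2, ?_⟩
    rw [h1, hch]
    rw [h1] at h3
    exact h3

end Pool.Agent.Results.MP_1bab94_lc.CofactorBound
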