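import Pool.Agent.SparseIrr.LinearMain

/-!
An irreducibility test for polynomials `f` over a perfect field of characteristic `p` by linear
algebra over the prime field, in unknown polynomials supported on an explicit set of at most
`s ^ ((p - 1) * m)` exponent vectors (`s` monomials, individual degrees of `f` below `p ^ m`),
and exact divisions with quotients of at most `s ^ ((p - 1) * m + 1)` monomials.
-/

namespace Pool.Agent.Results.MP_1bab94_lc.LinearTest

open MvPolynomial Pool.Agent.SparseIrr

theorem result {p : ℕ} [Fact p.Prime] {F : Type*} [Field F] [PerfectField F] [CharP F p]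
    {σ : Type*} (f : MvPolynomial σ F) (m : ℕ)
    (hdeg : ∀ i, f.degreeOf i < p ^ m) (hf : 0 < f.totalDegree) :
    (cand p m f).card ≤ f.support.card ^ ((p - 1) * m) ∧
    (∀ i w, f * w = (X i * pderiv i f) ^ 2 → w.support.card ≤ f.support.card ^ ((p - 1) * m + 1)) ∧
    (Irreducible f ↔
      (∀ i, X i ∣ f → f.totalDegree = 1) ∧
      (∀ i, f ∣ (X i * pderiv i f) ^ 2 → ∃ c : F, X i * pderiv i f = C c * f) ∧
      (∀ u : σ → MvPolynomial σ F,
        (∀ i, (u i).support ⊆ cand p m f) →
        (∀ i, (u i).totalDegree ≤ f.totalDegree) →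
        (∀ i β, coeff β ((u i) ^ p) = if p ∣ β i then coeff β (f ^ (p - 1) * u i) else 0) →
        (∀ i j, f * (X j * pderiv j (u i) - X i * pderiv i (u j))
          = u i * (X j * pderiv j f) - u j * (X i * pderiv i f)) →
        ∃ (c : ℤ) (d : σ → ℤ), ∀ i,
          u i = C (c : F) * (X i * pderiv i f) + C (d i : F) * f)) := by
  refine ⟨card_cand_le p m f, fun i w hw => ?_, ?_⟩
  · have hf0 : f ≠ 0 := by rintro rfl; simp at hf
    have hfs : 1 ≤ f.support.card := by
      rw [Nat.one_le_iff_ne_zero, Finset.card_ne_zero]
      exact support_nonempty.mpr hf0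
    have hwb : ∀ β ∈ w.support, ∀ l, β l < p ^ m := by
      intro β hβ l
      have hw0 : w ≠ 0 := by rintro rfl; simp at hβ
      have e1 : (f * w).degreeOf l = f.degreeOf l + w.degreeOf l := degreeOf_mul_eq hf0 hw0
      have e2 := degreeOf_mul_le l (theta i f) (theta i f)
      have e3 : f * w = theta i f * theta i f := by rw [hw]; unfold theta; ring
      rw [← e3, e1] at e2
      have e4 := degreeOf_theta_le i l f
      have e5 := monomial_le_degreeOf l hβ
      have e6 := hdeg l
      omega
    have hc := cofactor_bound p m f w _ hw hwb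
    have h1 : ((X i * pderiv i f) ^ 2).support.card ≤ f.support.card ^ 2 :=
      (card_support_pow_le (X i * pderiv i f) 2).trans
        (Nat.pow_le_pow_left (Finset.card_le_card (support_theta_subset i f)) 2)
    have h2 : (f ^ (p - 1)).support.card ^ m ≤ f.support.card ^ ((p - 1) * m) := by
      rw [pow_mul]
      exact Nat.pow_le_pow_left (card_support_pow_le f (p - 1)) m
    have h3 : w.support.card * f.support.card
        ≤ f.support.card ^ ((p - 1) * m + 1) * f.support.card := by
      refine hc.trans ((Nat.mul_le_mul h1 h2).trans (le_of_eq ?_))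
      ring
    exact Nat.le_of_mul_le_mul_right h3 hfs
  · rw [irreducible_iff_linear p m f hdeg hf]
    refine and_congr Iff.rfl (and_congr Iff.rfl ?_)
    constructor
    · intro h u h1 h2 h3 h4
      refine h u ⟨h1, h2, fun i => ?_, h4⟩
      ext β
      rw [coeff_proj, h3 i β]
    · rintro h u ⟨h1, h2, h3, h4⟩
      refine h u h1 h2 (fun i β => ?_) h4
      rw [← coeff_proj, h3 i]

end Pool.Agent.Results.MP_1bab94_lc.LinearTest
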