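import Pool.Agent.SIRP.MainP

/-!
# Irreducibility of sparse polynomials in P

`Irr F c` (`SIRM/Defs.lean`) is the set of the codes, possibly padded, of the irreducible polynomials
`f` over the finite field `F` such that `log s * log d ≤ c * log N`, where `s` is the number of
monomials of `f`, `d` a bound for the degree in each variable and `N` the length of the word;
`IrrDeg F t` the set of the codes, possibly padded, of the irreducible polynomials of degree at most
`t` in each variable.
-/

set_option autoImplicit false

namespace Pool.Agent.Results.MP_1bab94_lc.SparseInP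

open Turing Computability Pool.Agent.PT Pool.Agent.SIRM

/-- The class P over Mathlib's Turing machines, for languages over a finite alphabet. -/
def InP {Γ : Type} (L : Set (List Γ)) : Prop :=
  ∃ f : List Γ → Bool,
    Nonempty (TM2ComputableInPolyTime (encodingList Γ).encode encodeBool f) ∧
    ∀ x : List Γ, x ∈ L ↔ f x = true

/-- The codes, possibly padded, of the irreducible polynomials of degree at most `t` in each
variable. -/
def IrrDeg (F : Type) [Field F] (t : ℕ) : Set (List (Option (F ⊕ Bool))) :=
  {x | ∃ (n : ℕ) (f : MvPolynomial (Fin n) F), IsCode x f ∧ (∀ i, f.degreeOf i ≤ t) ∧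
    Irreducible f}

/-- Irreducibility of sparse polynomials over a finite field is in P, and in coNP, for the inputs
with `log s * log d ≤ c * log N` and for those of degree at most `t` in each variable. -/
theorem result (F : Type) [Field F] [Finite F] :
    (∀ c : ℕ, InP (Irr F c) ∧ InNP (Irr F c)ᶜ) ∧
    (∀ t : ℕ, InP (IrrDeg F t) ∧ InNP (IrrDeg F t)ᶜ) := by
  have := Fintype.ofFinite F
  exact ⟨fun c => ⟨Pool.Agent.SIRP.mainP c, main c⟩, fun t => ⟨Pool.Agent.SIRP.mainPB t, mainB t⟩⟩

end Pool.Agent.Results.MP_1bab94_lc.SparseInP
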